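import Pool.Agent.W323.PT.Stm

/-! A convex chain `Z` and points `Y` on the outer side of all its chords. -/

set_option autoImplicit false

open Pool.Agent.W323.PT

namespace Pool.Agent.W891.PT

theorem orot (a b c : Pt) : o a b c = o b c a := by
  unfold o
  ring

theorem oswap (a b c : Pt) : o a b c = - o b a c := by
  unfold o
  ring

theorem rep1 (z3 z11 z7 z15 u v : Pt) (h : o z7 z15 z3 - o z7 z15 z11 ≠ 0) :
    (o z7 z15 z3 - o z7 z15 z11) * o (X z3 z11 z7 z15) u v =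
      -(o z7 z15 z11) * o z3 u v + o z7 z15 z3 * o z11 u v := by
  have h1 : (o z7 z15 z3 / (o z7 z15 z3 - o z7 z15 z11)) * (o z7 z15 z3 - o z7 z15 z11) =
      o z7 z15 z3 := div_mul_cancel₀ _ h
  have h2 : o (X z3 z11 z7 z15) u v =
      (1 - o z7 z15 z3 / (o z7 z15 z3 - o z7 z15 z11)) * o z3 u v +
      (o z7 z15 z3 / (o z7 z15 z3 - o z7 z15 z11)) * o z11 u v := by
    unfold X
    set t := o z7 z15 z3 / (o z7 z15 z3 - o z7 z15 z11) with ht
    simp only [o, Prod.fst_add, Prod.snd_add, Prod.smul_fst, Prod.smul_snd, Prod.fst_sub,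
      Prod.snd_sub, smul_eq_mul]
    ring
  rw [h2]
  linear_combination (o z11 u v - o z3 u v) * h1

theorem rep2 (z3 z11 z7 z15 u v : Pt) (h : o z7 z15 z3 - o z7 z15 z11 ≠ 0) :
    (o z7 z15 z3 - o z7 z15 z11) * o (X z3 z11 z7 z15) u v =
      o z3 z11 z15 * o z7 u v + -(o z3 z11 z7) * o z15 u v := by
  rw [rep1 _ _ _ _ _ _ h]
  unfold o
  ring

theorem q4 : S_Q4 := by
  intro Z Y hZ hY
  have P1 : ∀ i j k, i < j → j < k → k < 19 → 0 < o (Z i) (Z j) (Z k) := hZ
  have P2 : ∀ i j k, i < j → j < k → k < 19 → 0 < o (Z j) (Z k) (Z i) := by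
    intro i j k h1 h2 h3
    rw [← orot]
    exact hZ i j k h1 h2 h3
  have P3 : ∀ i j k, i < j → j < k → k < 19 → 0 < o (Z k) (Z i) (Z j) := by
    intro i j k h1 h2 h3
    rw [orot]
    exact hZ i j k h1 h2 h3
  have N1 : ∀ i j k, i < j → j < k → k < 19 → o (Z j) (Z i) (Z k) < 0 := by
    intro i j k h1 h2 h3
    rw [oswap]
    have := hZ i j k h1 h2 h3
    linarith
  have N2 : ∀ i j k, i < j → j < k → k < 19 → o (Z i) (Z k) (Z j) < 0 := by
    intro i j k h1 h2 h3
    rw [← orot]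
    exact N1 i j k h1 h2 h3
  have Ya : ∀ i j k, i < j → j < 19 → k < 19 → k ≠ i → k ≠ j → 0 < o (Z i) (Y k) (Z j) := by
    intro i j k h1 h2 h3 h4 h5
    have h6 := hY i j k h1 h2 h3 h4 h5
    have h7 : o (Z i) (Y k) (Z j) = - o (Y k) (Z i) (Z j) := oswap _ _ _
    linarith
  have Yb : ∀ i j k, i < j → j < 19 → k < 19 → k ≠ i → k ≠ j → 0 < o (Z j) (Z i) (Y k) := by
    intro i j k h1 h2 h3 h4 h5
    have h6 := hY i j k h1 h2 h3 h4 h5
    have h7 : o (Z j) (Z i) (Y k) = - o (Y k) (Z i) (Z j) := by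
      unfold o
      ring
    linarith
  have hA : 0 < o (Z 7) (Z 15) (Z 3) := P2 3 7 15 (by norm_num) (by norm_num) (by norm_num)
  have hB : 0 < -(o (Z 7) (Z 15) (Z 11)) := by
    have := N2 7 11 15 (by norm_num) (by norm_num) (by norm_num)
    linarith
  have hG : 0 < o (Z 3) (Z 11) (Z 15) := P1 3 11 15 (by norm_num) (by norm_num) (by norm_num)
  have hE : 0 < -(o (Z 3) (Z 11) (Z 7)) := by
    have := N2 3 7 11 (by norm_num) (by norm_num) (by norm_num)
    linarith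
  have hS : 0 < o (Z 7) (Z 15) (Z 3) - o (Z 7) (Z 15) (Z 11) := by linarith
  obtain ⟨c, hc⟩ : ∃ c, c = X (Z 3) (Z 11) (Z 7) (Z 15) := ⟨_, rfl⟩
  have e1 : ∀ u v, (o (Z 7) (Z 15) (Z 3) - o (Z 7) (Z 15) (Z 11)) * o c u v =
      -(o (Z 7) (Z 15) (Z 11)) * o (Z 3) u v + o (Z 7) (Z 15) (Z 3) * o (Z 11) u v := by
    intro u v
    rw [hc]
    exact rep1 _ _ _ _ _ _ hS.ne'
  have e2 : ∀ u v, (o (Z 7) (Z 15) (Z 3) - o (Z 7) (Z 15) (Z 11)) * o c u v =
      o (Z 3) (Z 11) (Z 15) * o (Z 7) u v + -(o (Z 3) (Z 11) (Z 7)) * o (Z 15) u v := by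
    intro u v
    rw [hc]
    exact rep2 _ _ _ _ _ _ hS.ne'
  have R1 : ∀ u v, 0 < o (Z 3) u v → 0 < o (Z 11) u v → 0 < o c u v := by
    intro u v h3 h11
    refine (mul_pos_iff_of_pos_left hS).1 ?_
    rw [e1]
    exact add_pos (mul_pos hB h3) (mul_pos hA h11)
  have R2 : ∀ u v, 0 < o (Z 7) u v → 0 ≤ o (Z 15) u v → 0 < o c u v := by
    intro u v h7 h15
    refine (mul_pos_iff_of_pos_left hS).1 ?_
    rw [e2]
    exact add_pos_of_pos_of_nonneg (mul_pos hG h7) (mul_nonneg hE.le h15)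
  have h0 : ∀ v, 0 ≤ o (Z 15) (Z 15) v := by
    intro v
    have : o (Z 15) (Z 15) v = 0 := by
      unfold o
      ring
    exact this.ge
  have e9 := e1 (Z 9) (Z 17)
  have hb : 0 < o (Z 9) (Z 11) (Z 17) := P1 9 11 17 (by norm_num) (by norm_num) (by norm_num)
  have ha : 0 < o (Z 3) (Z 9) (Z 17) := P1 3 9 17 (by norm_num) (by norm_num) (by norm_num)
  have hb' : o (Z 11) (Z 9) (Z 17) = - o (Z 9) (Z 11) (Z 17) := oswap _ _ _
  rcases le_or_gt 0 (o c (Z 9) (Z 17)) with hI | hII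
  · -- case I
    have hsp : 0 < o c (Z 10) (Z 17) := by
      refine (mul_pos_iff_of_pos_left hS).1 ?_
      rw [e1]
      have g1 : 0 ≤ -(o (Z 7) (Z 15) (Z 11)) * o (Z 3) (Z 9) (Z 17) +
          o (Z 7) (Z 15) (Z 3) * o (Z 11) (Z 9) (Z 17) := by
        rw [← e9]
        exact mul_nonneg hS.le hI
      have g2 : 0 < o (Z 3) (Z 10) (Z 17) := P1 3 10 17 (by norm_num) (by norm_num) (by norm_num)
      have g3 : 0 < o (Z 3) (Z 11) (Z 17) := P1 3 11 17 (by norm_num) (by norm_num) (by norm_num)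
      have g4 : 0 < o (Z 9) (Z 10) (Z 17) := P1 9 10 17 (by norm_num) (by norm_num) (by norm_num)
      have g5 : o (Z 3) (Z 9) (Z 17) * o (Z 11) (Z 10) (Z 17) -
          o (Z 3) (Z 10) (Z 17) * o (Z 11) (Z 9) (Z 17) =
          o (Z 3) (Z 11) (Z 17) * o (Z 9) (Z 10) (Z 17) := by
        unfold o
        ring
      have g6 : 0 < o (Z 3) (Z 9) (Z 17) * (-(o (Z 7) (Z 15) (Z 11)) * o (Z 3) (Z 10) (Z 17) +
          o (Z 7) (Z 15) (Z 3) * o (Z 11) (Z 10) (Z 17)) := by
        have g7 : o (Z 3) (Z 9) (Z 17) * (-(o (Z 7) (Z 15) (Z 11)) * o (Z 3) (Z 10) (Z 17) +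
            o (Z 7) (Z 15) (Z 3) * o (Z 11) (Z 10) (Z 17)) =
            o (Z 3) (Z 10) (Z 17) * (-(o (Z 7) (Z 15) (Z 11)) * o (Z 3) (Z 9) (Z 17) +
              o (Z 7) (Z 15) (Z 3) * o (Z 11) (Z 9) (Z 17)) +
            o (Z 7) (Z 15) (Z 3) * (o (Z 3) (Z 9) (Z 17) * o (Z 11) (Z 10) (Z 17) -
              o (Z 3) (Z 10) (Z 17) * o (Z 11) (Z 9) (Z 17)) := by ring
        rw [g7, g5]
        exact add_pos_of_nonneg_of_pos (mul_nonneg g2.le g1) (mul_pos hA (mul_pos g3 g4))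
      exact (mul_pos_iff_of_pos_left ha).1 g6
    refine ⟨![(false, 3), (false, 11), (false, 7), (false, 15), (false, 15), (false, 17),
      (false, 4), (false, 6)], (false, 16), (false, 5), 10, by decide, by decide, by decide,
      by decide, by decide, by decide, by decide, by decide, ?_⟩
    show Pat (X (Z 3) (Z 11) (Z 7) (Z 15)) (Z 15) (Z 17) (Z 4) (Z 6) (Z 16) (Z 5) (Z 10) (Y 10)
    rw [← hc]
    refine ⟨⟨?_, ?_, ?_, ?_, ?_, ?_⟩, ⟨?_, ?_⟩, ⟨?_, ?_⟩, ⟨?_, ?_⟩, ?_, ?_⟩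
    · exact R1 _ _ (P1 3 15 17 (by norm_num) (by norm_num) (by norm_num))
        (P1 11 15 17 (by norm_num) (by norm_num) (by norm_num))
    · exact R2 _ _ (P2 4 7 15 (by norm_num) (by norm_num) (by norm_num)) (h0 _)
    · exact R2 _ _ (P2 6 7 15 (by norm_num) (by norm_num) (by norm_num)) (h0 _)
    · exact R2 _ _ (P2 4 7 17 (by norm_num) (by norm_num) (by norm_num))
        (P2 4 15 17 (by norm_num) (by norm_num) (by norm_num)).le
    · exact R2 _ _ (P2 6 7 17 (by norm_num) (by norm_num) (by norm_num))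
        (P2 6 15 17 (by norm_num) (by norm_num) (by norm_num)).le
    · exact R1 _ _ (P1 3 4 6 (by norm_num) (by norm_num) (by norm_num))
        (P3 4 6 11 (by norm_num) (by norm_num) (by norm_num))
    · exact R1 _ _ (P1 3 15 16 (by norm_num) (by norm_num) (by norm_num))
        (P1 11 15 16 (by norm_num) (by norm_num) (by norm_num))
    · exact R1 _ _ (P1 3 16 17 (by norm_num) (by norm_num) (by norm_num))
        (P1 11 16 17 (by norm_num) (by norm_num) (by norm_num))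
    · exact R1 _ _ (P1 3 4 5 (by norm_num) (by norm_num) (by norm_num))
        (P3 4 5 11 (by norm_num) (by norm_num) (by norm_num))
    · exact R1 _ _ (P1 3 5 6 (by norm_num) (by norm_num) (by norm_num))
        (P3 5 6 11 (by norm_num) (by norm_num) (by norm_num))
    · exact hsp
    · exact R1 _ _ (P1 3 4 10 (by norm_num) (by norm_num) (by norm_num))
        (P3 4 10 11 (by norm_num) (by norm_num) (by norm_num))
    · exact R1 _ _ (Ya 3 17 10 (by norm_num) (by norm_num) (by norm_num) (by norm_num)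
        (by norm_num)) (Ya 11 17 10 (by norm_num) (by norm_num) (by norm_num) (by norm_num)
        (by norm_num))
    · exact R2 _ _ (Yb 4 7 10 (by norm_num) (by norm_num) (by norm_num) (by norm_num)
        (by norm_num)) (Yb 4 15 10 (by norm_num) (by norm_num) (by norm_num) (by norm_num)
        (by norm_num)).le
  · -- case II
    have hsp : 0 < o c (Z 0) (Z 8) := by
      refine (mul_pos_iff_of_pos_left hS).1 ?_
      rw [e1]
      have g1 : -(o (Z 7) (Z 15) (Z 11)) * o (Z 3) (Z 9) (Z 17) +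
          o (Z 7) (Z 15) (Z 3) * o (Z 11) (Z 9) (Z 17) < 0 := by
        rw [← e9]
        exact mul_neg_of_pos_of_neg hS hII
      have g2 : 0 < o (Z 0) (Z 8) (Z 11) := P1 0 8 11 (by norm_num) (by norm_num) (by norm_num)
      have g3 : 0 < o (Z 3) (Z 8) (Z 11) := P1 3 8 11 (by norm_num) (by norm_num) (by norm_num)
      have g4 : 0 < o (Z 0) (Z 9) (Z 17) := P1 0 9 17 (by norm_num) (by norm_num) (by norm_num)
      have g5 : 0 < o (Z 0) (Z 3) (Z 11) := P1 0 3 11 (by norm_num) (by norm_num) (by norm_num)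
      have g6 : 0 < o (Z 8) (Z 9) (Z 17) := P1 8 9 17 (by norm_num) (by norm_num) (by norm_num)
      have g7 : o (Z 0) (Z 8) (Z 11) * o (Z 3) (Z 9) (Z 17) -
          o (Z 0) (Z 3) (Z 8) * o (Z 9) (Z 11) (Z 17) =
          o (Z 3) (Z 8) (Z 11) * o (Z 0) (Z 9) (Z 17) +
          o (Z 0) (Z 3) (Z 11) * o (Z 8) (Z 9) (Z 17) := by
        unfold o
        ring
      have g8 : o (Z 3) (Z 0) (Z 8) = - o (Z 0) (Z 3) (Z 8) := oswap _ _ _
      have g9 : o (Z 11) (Z 0) (Z 8) = o (Z 0) (Z 8) (Z 11) := orot _ _ _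
      rw [g8, g9]
      rw [hb'] at g1
      have g10 : o (Z 9) (Z 11) (Z 17) * (-(o (Z 7) (Z 15) (Z 11)) * - o (Z 0) (Z 3) (Z 8) +
          o (Z 7) (Z 15) (Z 3) * o (Z 0) (Z 8) (Z 11)) =
          o (Z 0) (Z 8) (Z 11) * -(-(o (Z 7) (Z 15) (Z 11)) * o (Z 3) (Z 9) (Z 17) +
            o (Z 7) (Z 15) (Z 3) * -o (Z 9) (Z 11) (Z 17)) +
          -(o (Z 7) (Z 15) (Z 11)) * (o (Z 0) (Z 8) (Z 11) * o (Z 3) (Z 9) (Z 17) -
            o (Z 0) (Z 3) (Z 8) * o (Z 9) (Z 11) (Z 17)) := by ring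
      have g11 : 0 < o (Z 9) (Z 11) (Z 17) * (-(o (Z 7) (Z 15) (Z 11)) * - o (Z 0) (Z 3) (Z 8) +
          o (Z 7) (Z 15) (Z 3) * o (Z 0) (Z 8) (Z 11)) := by
        rw [g10, g7]
        exact add_pos (mul_pos g2 (neg_pos.2 g1))
          (mul_pos hB (add_pos (mul_pos g3 g4) (mul_pos g5 g6)))
      exact (mul_pos_iff_of_pos_left hb).1 g11
    refine ⟨![(false, 3), (false, 11), (false, 7), (false, 15), (false, 12), (false, 14),
      (false, 0), (false, 2)], (false, 13), (false, 1), 8, by decide, by decide, by decide,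
      by decide, by decide, by decide, by decide, by decide, ?_⟩
    show Pat (X (Z 3) (Z 11) (Z 7) (Z 15)) (Z 12) (Z 14) (Z 0) (Z 2) (Z 13) (Z 1) (Z 8) (Y 8)
    rw [← hc]
    refine ⟨⟨?_, ?_, ?_, ?_, ?_, ?_⟩, ⟨?_, ?_⟩, ⟨?_, ?_⟩, ⟨?_, ?_⟩, ?_, ?_⟩
    · exact R1 _ _ (P1 3 12 14 (by norm_num) (by norm_num) (by norm_num))
        (P1 11 12 14 (by norm_num) (by norm_num) (by norm_num))
    · exact R1 _ _ (P2 0 3 12 (by norm_num) (by norm_num) (by norm_num))
        (P2 0 11 12 (by norm_num) (by norm_num) (by norm_num))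
    · exact R1 _ _ (P2 2 3 12 (by norm_num) (by norm_num) (by norm_num))
        (P2 2 11 12 (by norm_num) (by norm_num) (by norm_num))
    · exact R1 _ _ (P2 0 3 14 (by norm_num) (by norm_num) (by norm_num))
        (P2 0 11 14 (by norm_num) (by norm_num) (by norm_num))
    · exact R1 _ _ (P2 2 3 14 (by norm_num) (by norm_num) (by norm_num))
        (P2 2 11 14 (by norm_num) (by norm_num) (by norm_num))
    · exact R1 _ _ (P3 0 2 3 (by norm_num) (by norm_num) (by norm_num))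
        (P3 0 2 11 (by norm_num) (by norm_num) (by norm_num))
    · exact R1 _ _ (P1 3 12 13 (by norm_num) (by norm_num) (by norm_num))
        (P1 11 12 13 (by norm_num) (by norm_num) (by norm_num))
    · exact R1 _ _ (P1 3 13 14 (by norm_num) (by norm_num) (by norm_num))
        (P1 11 13 14 (by norm_num) (by norm_num) (by norm_num))
    · exact R1 _ _ (P3 0 1 3 (by norm_num) (by norm_num) (by norm_num))
        (P3 0 1 11 (by norm_num) (by norm_num) (by norm_num))
    · exact R1 _ _ (P3 1 2 3 (by norm_num) (by norm_num) (by norm_num))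
        (P3 1 2 11 (by norm_num) (by norm_num) (by norm_num))
    · exact R2 _ _ (P1 7 8 14 (by norm_num) (by norm_num) (by norm_num))
        (P3 8 14 15 (by norm_num) (by norm_num) (by norm_num)).le
    · exact hsp
    · exact R1 _ _ (Ya 3 14 8 (by norm_num) (by norm_num) (by norm_num) (by norm_num)
        (by norm_num)) (Ya 11 14 8 (by norm_num) (by norm_num) (by norm_num) (by norm_num)
        (by norm_num))
    · exact R1 _ _ (Yb 0 3 8 (by norm_num) (by norm_num) (by norm_num) (by norm_num)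
        (by norm_num)) (Yb 0 11 8 (by norm_num) (by norm_num) (by norm_num) (by norm_num)
        (by norm_num))

end Pool.Agent.W891.PT
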